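import Pool.Agent.Lib_helper33.OW.Num3
import Pool.Agent.Lib_helper92.OW.Defs

/-!
Numeric facts for `bt K` (the bound of MP_5ababd).
-/

set_option autoImplicit false

namespace Pool.Agent.OW

theorem bt_eq (K m : ℕ) : bt K m = beta K (vt K) m := rfl

theorem vt_odd {K : ℕ} (h : K % 2 = 1) : vt K = VO K := by
  funext p
  unfold vt VO
  split_ifs <;> first | rfl | omega

theorem vt_even {K : ℕ} (h : K % 2 = 0) : vt K = VE K := by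
  funext p
  unfold vt VE
  split_ifs <;> first | rfl | omega

theorem pre_vt {K : ℕ} (hK : 7 ≤ K) : Pre K (vt K) := by
  rcases Nat.mod_two_eq_zero_or_one K with h | h
  · rw [vt_even h]
    exact pre_even hK h
  · rw [vt_odd h]
    exact pre_odd (by omega) h

section facts

variable {K : ℕ}

/-- parity, as needed for `exists_cex`. -/
theorem N_F0 (hK : 7 ≤ K) (m : ℕ) : (2 : ℤ) ∣ ((K : ℤ) + 1) * (m + 1) - bt K m := by
  have := F0 (pre_vt hK) m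
  rw [bt_eq]
  omega

/-- cost at least `2`. -/
theorem N_F1 (hK : 7 ≤ K) (m t s : ℕ) (h1 : 1 ≤ s) (h2 : s ≤ K) (h3 : s ≤ t) :
    bt K m + bt K t + 2 ≤ bt K (m + t + 1 - s) + (s : ℤ) * ((K : ℤ) + 2 - s) :=
  F1 (pre_vt hK) m t (m + t + 1 - s) s h1 h2 (by omega)

/-- cost at least `2`, other form. -/
theorem N_F1' (hK : 7 ≤ K) (m t x s : ℕ) (h1 : 1 ≤ s) (h2 : s ≤ K) (hx : m + t + 1 = x + s) :
    bt K m + bt K t + 2 ≤ bt K x + (s : ℤ) * ((K : ℤ) + 2 - s) :=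
  F1 (pre_vt hK) m t x s h1 h2 hx

/-- the last step of a chain of pair sets: `N = |V| - 1`, `m = |W| - 1`. -/
theorem N_F2 (hK : 7 ≤ K) (N m s : ℕ) (h1 : 2 ≤ s) (h2 : s ≤ K) (hm : 1 ≤ m) (hmN : m ≤ N)
    (hN : N % K = 0 ∨ N % K = 1 ∨ N % K + 2 = K ∨ N % K + 1 = K)
    (hexc : ¬ (N % K + 1 = K ∧ m % K = 1 ∧ s = 3)) :
    (K : ℤ) + 1 + bt K (m - 1) + bt K (N - m + s - 1) ≤ bt K N + (s : ℤ) * ((K : ℤ) + 2 - s) := by
  refine F2 (pre_vt hK) (m - 1) (N - m + s - 1) N s h1 h2 (by omega) hN ?_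
  rintro ⟨a1, a2, a3⟩
  apply hexc
  refine ⟨a1, ?_, a3⟩
  have h5 := Nat.div_add_mod (m - 1) K
  rw [a2] at h5
  have h6 : m = K * ((m - 1) / K) + 1 := by omega
  rw [h6, Nat.mul_add_mod]
  exact Nat.mod_eq_of_lt (by omega)

/-- the exceptional case of `N_F2`. -/
theorem N_F2exc (hK : 7 ≤ K) (N m : ℕ) (hm : 1 ≤ m) (hmN : m ≤ N)
    (hN : N % K + 1 = K) (hm1 : m % K = 1) :
    (K : ℤ) - 1 + bt K (m - 1) + bt K (N - m + 2) = bt K N + 3 * ((K : ℤ) + 2 - 3) ∧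
      (N - m + 2) % K = 0 := by
  have h0 : (m - 1) % K = 0 := by
    have h5 := Nat.div_add_mod m K
    rw [hm1] at h5
    have h6 : m - 1 = K * (m / K) := by omega
    rw [h6, Nat.mul_mod_right]
  exact F2exc (pre_vt hK) (m - 1) (N - m + 2) N 3 (by omega) (by omega) (by omega) hN h0 rfl

/-- the absorbing step: `m = |W| - 1`, `a = |S|`. -/
theorem N_F3 (hK : 7 ≤ K) (m a s : ℕ) (h1 : 2 ≤ s) (h2 : s ≤ K) (hm : 1 ≤ m) :
    (K : ℤ) + 2 + bt K (m - 1) + bt K (a + s - 1) ≤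
      bt K (m + a) + (s : ℤ) * ((K : ℤ) + 2 - s) + LL K ((m + a) % K) :=
  F3 (pre_vt hK) (m - 1) (a + s - 1) (m + a) s h1 h2 (by omega)

theorem N_F4a (hK : 7 ≤ K) (N m s : ℕ) (h1 : 1 ≤ s) (h2 : s ≤ K) (hmN : m ≤ N)
    (hm : m % K ≠ 0) (hm2 : m % K ≠ N % K) :
    bt K m + bt K (N - m + s - 1) + 4 ≤ bt K N + (s : ℤ) * ((K : ℤ) + 2 - s) :=
  F4a (pre_vt hK) m (N - m + s - 1) N s h1 h2 (by omega) hm hm2

theorem N_F4b (hK : 7 ≤ K) (m a s : ℕ) (h1 : 1 ≤ s) (h2 : s ≤ K)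
    (hm : m % K = 2) (hm2 : (m + a) % K ≠ 2) :
    bt K m + bt K (a + s - 1) + (K - 2) ≤ bt K (m + a) + (s : ℤ) * ((K : ℤ) + 2 - s) :=
  F4b (pre_vt hK) m (a + s - 1) (m + a) s h1 h2 (by omega) hm hm2

theorem N_F4c (hK : 7 ≤ K) (N m s : ℕ) (h1 : 1 ≤ s) (h2 : s ≤ K) (hmN : m ≤ N)
    (hm : m % K = 2) (hN : N % K = 0 ∨ N % K = 1 ∨ N % K + 2 = K ∨ N % K + 1 = K) :
    bt K m + bt K (N - m + s - 1) + K ≤ bt K N + (s : ℤ) * ((K : ℤ) + 2 - s) :=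
  F4c (pre_vt hK) m (N - m + s - 1) N s h1 h2 (by omega) hm hN

/-- the last step with `s ≥ 2`, for `2 ≤ N % K ≤ K - 3`. -/
theorem N_F5 (hK : 7 ≤ K) (N m s : ℕ) (h1 : 2 ≤ s) (h2 : s ≤ K) (hmN : m ≤ N)
    (hN : 2 ≤ N % K) (hN2 : N % K + 3 ≤ K) :
    bt K m + bt K (N - m + s - 1) + 2 * (iR K (N % K) : ℤ) ≤
      bt K N + (s : ℤ) * ((K : ℤ) + 2 - s) :=
  F5 (pre_vt hK) m (N - m + s - 1) N s h1 h2 (by omega) hN hN2

/-- the clone bound, last step with `s = 1`. -/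
theorem N_F6one (hK : 7 ≤ K) (N m : ℕ) (hmN : m ≤ N) (hN : 2 ≤ N % K) (hN2 : N % K + 3 ≤ K) :
    (K : ℤ) - 1 + bt K (m + 1) + bt K (N - m) ≤
      bt K N + 1 * ((K : ℤ) + 2 - 1) + 2 * (iR K (N % K) : ℤ) := by
  have := F6one (pre_vt hK) (m + 1) (N - m) N (by omega) hN hN2
  rw [bt_eq, bt_eq, bt_eq]
  linarith

/-- the clone bound, last step with `s ≥ 2`. -/
theorem N_F6two (hK : 7 ≤ K) (N m s : ℕ) (h1 : 2 ≤ s) (h2 : s ≤ K) (hmN : m ≤ N)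
    (hN : 2 ≤ N % K) (hN2 : N % K + 3 ≤ K)
    (hexc : ¬ (N % K + 3 = K ∧ m % K + 1 = K ∧ s = 3)) :
    (K : ℤ) - 1 + bt K (m + 1) + bt K (N - m + s - 1) ≤
      bt K N + (s : ℤ) * ((K : ℤ) + 2 - s) := by
  refine F6two (pre_vt hK) (m + 1) (N - m + s - 1) N s h1 h2 (by omega) hN hN2 ?_
  rintro ⟨a1, a2, a3⟩
  apply hexc
  refine ⟨a1, ?_, a3⟩
  have lp : m % K < K := Nat.mod_lt m (by omega)
  rcases red2 K m 1 (by omega) (by omega) with h | h <;> omega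

/-- the exceptional case. -/
theorem N_F6exc (hK : 7 ≤ K) (N m : ℕ) (hmN : m ≤ N)
    (hN : N % K + 3 = K) (hm : m % K + 1 = K) :
    (K : ℤ) - 3 + bt K (m + 1) + bt K (N - m + 2) = bt K N + 3 * ((K : ℤ) + 2 - 3) ∧
      (N - m + 2) % K = 0 := by
  have lp : (m + 1) % K < K := Nat.mod_lt _ (by omega)
  have h0 : (m + 1) % K = 0 := by
    rcases red2 K m 1 (by omega) (by omega) with h | h <;> omega
  exact F6exc (pre_vt hK) (m + 1) (N - m + 2) N (by omega) hN h0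

theorem N_F7a (hK : 7 ≤ K) (N m s : ℕ) (h1 : 1 ≤ s) (h2 : s ≤ K) (hmN : m ≤ N)
    (hN : N % K = 0) (hm : m % K ≠ 0) :
    bt K m + bt K (N - m + s - 1) + (2 * K - 2) ≤ bt K N + (s : ℤ) * ((K : ℤ) + 2 - s) :=
  F7a (pre_vt hK) m (N - m + s - 1) N s h1 h2 (by omega) hN hm

theorem N_F7b (hK : 7 ≤ K) (N m s : ℕ) (h1 : 2 ≤ s) (h2 : s ≤ K) (hmN : m ≤ N)
    (hN : N % K = 0) (hm : m % K = 0) :
    bt K m + bt K (N - m + s - 1) + (2 * K - 2) ≤ bt K N + (s : ℤ) * ((K : ℤ) + 2 - s) :=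
  F7b (pre_vt hK) m (N - m + s - 1) N s h1 h2 (by omega) hN hm

theorem N_F7c (hK : 7 ≤ K) (N m s : ℕ) (h1 : 3 ≤ s) (h2 : s ≤ K) (hmN : m ≤ N)
    (hN : N % K = 0) (hm : m % K = 1) :
    bt K m + bt K (N - m + s - 1) + (2 * K - 1) ≤ bt K N + (s : ℤ) * ((K : ℤ) + 2 - s) :=
  F7c (pre_vt hK) m (N - m + s - 1) N s h1 h2 (by omega) hN hm

/-- the pair bound: `up(m) = bt (m - 1) - bt m + K + 1`. -/
theorem N_N3 (hK : 7 ≤ K) (m : ℕ) (hm : 1 ≤ m) :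
    (m % K = 0 → bt K (m - 1) - bt K m + K + 1 = 2) ∧
    (m % K = 1 → bt K (m - 1) - bt K m + K + 1 = 2 * K - 2) ∧
    (2 ≤ m % K → bt K (m - 1) - bt K m + K + 1 < 2 * K - 2) := by
  have := N3 (pre_vt hK) (m - 1)
  rw [Nat.sub_add_cancel hm] at this
  exact this

theorem N_N6 (hK : 7 ≤ K) (m a : ℕ) (ha : a + 2 ≤ K) :
    (K : ℤ) + 1 + bt K m - bt K (m + (K - a)) - 2 * a - ((K : ℤ) - 1 - a) * (1 + a) ≤ 0 :=
  N6 (pre_vt hK) m a ha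

theorem bt_add_K (hK : 7 ≤ K) (m : ℕ) : bt K (m + K) = bt K m + 2 := beta_add_K (pre_vt hK) m

theorem bt_drop (hK : 7 ≤ K) (m j : ℕ) (hj : j ≤ K) : bt K m ≤ bt K (m + j) + K :=
  beta_drop (pre_vt hK) m j hj

theorem N_D2 (hK : 7 ≤ K) (x : ℕ) : bt K x ≤ bt K (x + (K - 1)) + (K - 3) := D2 (pre_vt hK) x

theorem N_D2' (hK : 7 ≤ K) (x : ℕ) (hx : x % K ≠ 0) : bt K x ≤ bt K (x + (K - 1)) + 1 :=
  D2' (pre_vt hK) x hx

theorem N_D3 (hK : 7 ≤ K) (x : ℕ) : bt K x ≤ bt K (x + (K - 2)) + (K - 2) := D3 (pre_vt hK) x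

/-- the value at the middle residues is at least `0`, except `r = K - 4` for even `K`. -/
theorem vt_mid (K r : ℕ) (hK : 7 ≤ K) :
    0 ≤ vt K r ∨ (K % 2 = 0 ∧ r + 4 = K ∧ vt K r = -1) := by
  unfold vt; split_ifs <;> omega

end facts

end Pool.Agent.OW
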