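import Mathlib

/-!
Numeric facts (F0)-(F7) for the bound `beta` of MP_5ababd.
-/

namespace Pool.Agent.OW

/-- `beta (K q + p) = 2 q + V p` for `p < K`. -/
def beta (K : ℕ) (V : ℕ → ℤ) (m : ℕ) : ℤ := 2 * ((m / K : ℕ) : ℤ) + V (m % K)

/-- The table for odd `K`. -/
def VO (K : ℕ) (p : ℕ) : ℤ :=
  if p = 0 then (K : ℤ) - 1
  else if p = 1 ∨ p + 1 = K ∨ p + 2 = K then 2 else 0

/-- The table for even `K`. -/
def VE (K : ℕ) (p : ℕ) : ℤ :=
  if p = 0 then (K : ℤ) - 1
  else if p = 1 ∨ p + 1 = K then 2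
  else if p + 4 = K then -1
  else if p % 2 = 0 then 1 else 0

/-- The table. -/
def VT (K : ℕ) : ℕ → ℤ := if K % 2 = 1 then VO K else VE K

/-- The number of edges that can be added to every proper set, for `2 ≤ r ≤ K - 3`. -/
def iR (K r : ℕ) : ℕ := if r + 3 = K then (K - 1) / 2 else K / 2 - 1

/-- The elementary properties of the table from which everything is derived. -/
structure Pre (K : ℕ) (V : ℕ → ℤ) : Prop where
  hK : 7 ≤ K
  v0 : V 0 = (K : ℤ) - 1
  v1 : V 1 = 2
  lo : ∀ p, p < K → -1 ≤ V p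
  hi : ∀ p, p ≠ 0 → p < K → V p ≤ 2
  k1 : ∀ p, p + 1 = K → V p = 2
  k2 : ∀ p, p + 2 = K → 1 ≤ V p
  k3 : ∀ p, p + 3 = K → V p = 0
  k4 : ∀ p x, p + 4 = K → x + 2 = K → V p + 2 ≤ V x
  md : ∀ p, 2 ≤ p → p + 3 ≤ K → V p ≤ 1
  v2 : ∀ p, p = 2 → 0 ≤ V p ∧ V p ≤ 1
  v3 : ∀ p, p = 3 → V p = 0
  st : ∀ w x, 2 ≤ w → x = w + 2 → x + 3 ≤ K → V w ≤ V x + 2
  par : ∀ p, p < K → (V p - (K + 1) * (p + 1)) % 2 = 0
  r2 : ∀ p, p = 2 → 2 * (iR K 2 : ℤ) + 2 ≤ V p + K - 1
  dn : ∀ r x, 3 ≤ r → r + 3 ≤ K → x + 1 = r → V x + 2 * (iR K r : ℤ) ≤ V r + K - 1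
  up : ∀ r x, 2 ≤ r → r + 3 ≤ K → x = r + 1 → V x + K - 3 ≤ V r + 2 * (iR K r : ℤ)
  up2 : ∀ r x, 2 ≤ r → r + 3 ≤ K → x = r + 2 → V x ≤ V r + 2
  r4 : ∀ r, r + 4 = K → K = 8 → -1 ≤ V r
  s7 : ∀ p, p < K → K = 7 → 0 ≤ V p
  k7 : ∀ p, p + 2 = K → K = 7 → V p = 2

theorem iR_le (K r : ℕ) (hK : 7 ≤ K) : 2 * (iR K r : ℤ) ≤ K - 1 := by
  unfold iR; split_ifs <;> omega

theorem iR_ge (K r : ℕ) (hK : 7 ≤ K) : (K : ℤ) - 3 ≤ 2 * (iR K r : ℤ) := by
  unfold iR; split_ifs <;> omega

theorem pre_odd {K : ℕ} (hK : 7 ≤ K) (ho : K % 2 = 1) : Pre K (VO K) where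
  hK := by omega
  v0 := by simp [VO]
  v1 := by simp [VO]
  lo := by intro p hp; unfold VO; split_ifs <;> omega
  hi := by intro p hp hp2; unfold VO; split_ifs <;> omega
  k1 := by intro p hp; unfold VO; split_ifs <;> omega
  k2 := by intro p hp; unfold VO; split_ifs <;> omega
  k3 := by intro p hp; unfold VO; split_ifs <;> omega
  k4 := by intro p x hp hx; unfold VO; split_ifs <;> omega
  md := by intro p hp hp2; unfold VO; split_ifs <;> omega
  v2 := by intro p hp; unfold VO; split_ifs <;> omega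
  v3 := by intro p hp; unfold VO; split_ifs <;> omega
  st := by intro w x h1 h2 h3; unfold VO; split_ifs <;> omega
  par := by
    intro p hp
    obtain ⟨a, ha⟩ : ∃ a : ℕ, K = 2 * a + 1 := ⟨K / 2, by omega⟩
    have : ((K : ℤ) + 1) * (p + 1) = 2 * ((a + 1) * (p + 1)) := by subst ha; push_cast; ring
    rw [this]
    unfold VO; split_ifs <;> omega
  r2 := by intro p hp; unfold VO iR; split_ifs <;> omega
  dn := by intro r x h1 h2 h3; unfold VO iR; split_ifs <;> omega
  up := by intro r x h1 h2 h3; unfold VO iR; split_ifs <;> omega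
  up2 := by intro r x h1 h2 h3; unfold VO; split_ifs <;> omega
  r4 := by intro r h1 h2; omega
  s7 := by intro p h1 h2; unfold VO; split_ifs <;> omega
  k7 := by intro p h1 h2; unfold VO; split_ifs <;> omega

theorem pre_even {K : ℕ} (hK : 7 ≤ K) (ho : K % 2 = 0) : Pre K (VE K) where
  hK := by omega
  v0 := by simp [VE]
  v1 := by simp [VE]
  lo := by intro p hp; unfold VE; split_ifs <;> omega
  hi := by intro p hp hp2; unfold VE; split_ifs <;> omega
  k1 := by intro p hp; unfold VE; split_ifs <;> omega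
  k2 := by intro p hp; unfold VE; split_ifs <;> omega
  k3 := by intro p hp; unfold VE; split_ifs <;> omega
  k4 := by intro p x hp hx; unfold VE; split_ifs <;> omega
  md := by intro p hp hp2; unfold VE; split_ifs <;> omega
  v2 := by intro p hp; unfold VE; split_ifs <;> omega
  v3 := by intro p hp; unfold VE; split_ifs <;> omega
  st := by intro w x h1 h2 h3; unfold VE; split_ifs <;> omega
  par := by
    intro p hp
    obtain ⟨a, ha⟩ : ∃ a : ℕ, K = 2 * a := ⟨K / 2, by omega⟩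
    have : ((K : ℤ) + 1) * (p + 1) = 2 * (a * (p + 1)) + (p + 1) := by subst ha; push_cast; ring
    rw [this]
    unfold VE; split_ifs <;> omega
  r2 := by intro p hp; unfold VE iR; split_ifs <;> omega
  dn := by intro r x h1 h2 h3; unfold VE iR; split_ifs <;> omega
  up := by intro r x h1 h2 h3; unfold VE iR; split_ifs <;> omega
  up2 := by intro r x h1 h2 h3; unfold VE; split_ifs <;> omega
  r4 := by intro r h1 h2; unfold VE; split_ifs <;> omega
  s7 := by intro p h1 h2; omega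
  k7 := by intro p h1 h2; omega

theorem pre_VT {K : ℕ} (hK : 7 ≤ K) : Pre K (VT K) := by
  unfold VT
  split_ifs with h
  · exact pre_odd (by omega) h
  · exact pre_even hK (by omega)

/-! ### lower bounds for `s (K + 2 - s)` -/

theorem sq_cases (K s : ℕ) (hK : 7 ≤ K) (h1 : 1 ≤ s) (h2 : s ≤ K) :
    (s = 1 ∧ (s : ℤ) * ((K : ℤ) + 2 - s) = K + 1) ∨
    (s = 2 ∧ (s : ℤ) * ((K : ℤ) + 2 - s) = 2 * K) ∨
    (s = K ∧ (s : ℤ) * ((K : ℤ) + 2 - s) = 2 * K) ∨
    (s = 3 ∧ (s : ℤ) * ((K : ℤ) + 2 - s) = 3 * K - 3) ∨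
    (s + 1 = K ∧ (s : ℤ) * ((K : ℤ) + 2 - s) = 3 * K - 3) ∨
    (4 ≤ s ∧ s + 2 ≤ K ∧ 4 * (K : ℤ) - 8 ≤ (s : ℤ) * ((K : ℤ) + 2 - s)) := by
  rcases Nat.lt_or_ge s 4 with h | h
  · have : s = 1 ∨ s = 2 ∨ s = 3 := by omega
    rcases this with rfl | rfl | rfl
    · left; exact ⟨rfl, by push_cast; ring⟩
    · right; left; exact ⟨rfl, by push_cast; ring⟩
    · right; right; right; left; exact ⟨rfl, by push_cast; ring⟩
  · rcases Nat.lt_or_ge K (s + 2) with h' | h'
    · have : s = K ∨ s + 1 = K := by omega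
      rcases this with rfl | h3
      · right; right; left; exact ⟨rfl, by ring⟩
      · right; right; right; right; left
        refine ⟨h3, ?_⟩
        have : (K : ℤ) = s + 1 := by omega
        rw [this]; ring
    · right; right; right; right; right
      refine ⟨h, h', ?_⟩
      have e1 : (4 : ℤ) ≤ s := by omega
      have e2 : (s : ℤ) + 2 ≤ K := by omega
      nlinarith

/-- Reduction of a relation between numbers to their residues. -/
theorem red (K m t x s c : ℕ) (hK : 0 < K) (h1 : 1 ≤ s) (h2 : s ≤ K) (hc : c ≤ 2)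
    (h : m + t + c = x + s) :
    ∃ e : ℤ, (e = -1 ∨ e = 0 ∨ e = 1) ∧
      ((x / K : ℕ) : ℤ) = ((m / K : ℕ) : ℤ) + ((t / K : ℕ) : ℤ) + e ∧
      ((m % K : ℕ) : ℤ) + ((t % K : ℕ) : ℤ) + c = ((x % K : ℕ) : ℤ) + s + K * e := by
  have hm := Nat.div_add_mod m K
  have ht := Nat.div_add_mod t K
  have hx := Nat.div_add_mod x K
  have lm := Nat.mod_lt m hK
  have lt := Nat.mod_lt t hK
  have lx := Nat.mod_lt x hK
  generalize m / K = a at *
  generalize t / K = b at *
  generalize x / K = d at *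
  generalize m % K = p at *
  generalize t % K = w at *
  generalize x % K = z at *
  subst hm ht hx
  have key : (K : ℤ) * ((d : ℤ) - a - b) = p + w + c - z - s := by
    have : (((K * a + p + (K * b + w) + c : ℕ)) : ℤ) = ((K * d + z + s : ℕ) : ℤ) := by
      exact_mod_cast h
    push_cast at this
    linarith
  have hKz : (0 : ℤ) < K := by exact_mod_cast hK
  have u1 : (d : ℤ) - a - b < 2 := by
    by_contra hh
    have : (2 : ℤ) ≤ (d : ℤ) - a - b := by omega
    have : (K : ℤ) * 2 ≤ (K : ℤ) * ((d : ℤ) - a - b) := by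
      exact mul_le_mul_of_nonneg_left this hKz.le
    omega
  have u2 : -2 < (d : ℤ) - a - b := by
    by_contra hh
    have : (d : ℤ) - a - b ≤ -2 := by omega
    have : (K : ℤ) * ((d : ℤ) - a - b) ≤ (K : ℤ) * (-2) := by
      exact mul_le_mul_of_nonneg_left this hKz.le
    omega
  refine ⟨(d : ℤ) - a - b, by omega, by ring, ?_⟩
  rw [key]; ring

/-! ### the facts -/

section facts

variable {K : ℕ} {V : ℕ → ℤ}

/-- (F0) parity. -/
theorem F0 (h : Pre K V) (m : ℕ) : (beta K V m - (K + 1) * (m + 1)) % 2 = 0 := by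
  have hK := h.hK
  have hp := h.par (m % K) (Nat.mod_lt m (by omega))
  have hm := Nat.div_add_mod m K
  unfold beta
  generalize m / K = a at *
  generalize m % K = p at *
  subst hm
  obtain ⟨c, hc⟩ := Int.even_mul_succ_self (K : ℤ)
  have : ((K : ℤ) + 1) * ((((K * a + p : ℕ)) : ℤ) + 1) = 2 * (c * a) + (K + 1) * (p + 1) := by
    push_cast
    have : (K : ℤ) * (K + 1) * a = (c + c) * a := by rw [hc]
    linear_combination this
  rw [this]
  omega

theorem F1a (h : Pre K V) {w z s : ℕ} {e : ℤ} (lw : w < K) (lz : z < K) (hw : w ≠ 0)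
    (h1 : 1 ≤ s) (h2 : s ≤ K) (he : e = -1 ∨ e = 0 ∨ e = 1)
    (hr : (w : ℤ) + 1 = z + s + K * e) :
    (K : ℤ) - 1 + V w + 2 ≤ 2 * e + V z + (s : ℤ) * ((K : ℤ) + 2 - s) := by
  have hK := h.hK
  have w1 := h.hi w hw lw
  have z0 := h.lo z lz
  have z7 := h.s7 z lz
  have hsq := sq_cases K s hK h1 h2
  generalize (s : ℤ) * ((K : ℤ) + 2 - s) = Q at *
  rcases hsq with ⟨hs, hv⟩ | ⟨hs, hv⟩ | ⟨hs, hv⟩ | ⟨hs, hv⟩ | ⟨hs, hv⟩ | ⟨hs, hs', hv⟩
  · rcases he with rfl | rfl | rfl
    · omega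
    · have : z = w := by omega
      subst this
      omega
    · omega
  all_goals rcases he with rfl | rfl | rfl <;> omega

/-- (F1) every extension step costs at least `2`. -/
theorem F1 (h : Pre K V) (m t x s : ℕ) (h1 : 1 ≤ s) (h2 : s ≤ K) (hx : m + t + 1 = x + s) :
    beta K V m + beta K V t + 2 ≤ beta K V x + (s : ℤ) * ((K : ℤ) + 2 - s) := by
  have hK := h.hK
  obtain ⟨e, he, hq, hr⟩ := red K m t x s 1 (by omega) h1 h2 (by omega) hx
  have lp : m % K < K := Nat.mod_lt m (by omega)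
  have lw : t % K < K := Nat.mod_lt t (by omega)
  have lz : x % K < K := Nat.mod_lt x (by omega)
  unfold beta
  rw [hq]
  generalize m % K = p at *
  generalize t % K = w at *
  generalize x % K = z at *
  have z0 := h.lo z lz
  have z7 := h.s7 z lz
  rcases Nat.eq_zero_or_pos p with hp | hp
  · rcases Nat.eq_zero_or_pos w with hw | hw
    · subst hp hw
      rw [h.v0]
      have hsq := sq_cases K s hK h1 h2
      generalize (s : ℤ) * ((K : ℤ) + 2 - s) = Q at *
      rcases hsq with ⟨hs, hv⟩ | ⟨hs, hv⟩ | ⟨hs, hv⟩ | ⟨hs, hv⟩ | ⟨hs, hv⟩ | ⟨hs, hs', hv⟩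
      · rcases he with rfl | rfl | rfl
        · omega
        · have : z = 0 := by omega
          subst this
          rw [h.v0] at *
          omega
        · omega
      · rcases he with rfl | rfl | rfl
        · have := h.k1 z (by omega)
          omega
        · omega
        · omega
      · rcases he with rfl | rfl | rfl
        · have : z = 1 := by omega
          subst this
          rw [h.v1] at *
          omega
        · omega
        · omega
      all_goals rcases he with rfl | rfl | rfl <;> omega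
    · subst hp
      have := F1a h lw lz (by omega) h1 h2 he (by push_cast at hr; linarith)
      rw [h.v0]
      linarith
  · rcases Nat.eq_zero_or_pos w with hw | hw
    · subst hw
      have := F1a h lp lz (by omega) h1 h2 he (by push_cast at hr; linarith)
      rw [h.v0]
      linarith
    · have p1 := h.hi p (by omega) lp
      have w1 := h.hi w (by omega) lw
      have hsq := sq_cases K s hK h1 h2
      generalize (s : ℤ) * ((K : ℤ) + 2 - s) = Q at *
      rcases hsq with ⟨hs, hv⟩ | ⟨hs, hv⟩ | ⟨hs, hv⟩ | ⟨hs, hv⟩ | ⟨hs, hv⟩ | ⟨hs, hs', hv⟩ <;>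
        rcases he with rfl | rfl | rfl <;> omega

theorem F2a (h : Pre K V) {w z s : ℕ} {e : ℤ} (lw : w < K) (lz : z < K) (hw : w ≠ 0)
    (h1 : 2 ≤ s) (h2 : s ≤ K) (he : e = -1 ∨ e = 0 ∨ e = 1)
    (hr : (w : ℤ) + 2 = z + s + K * e)
    (hN : z = 0 ∨ z = 1 ∨ z + 2 = K ∨ z + 1 = K) :
    (K : ℤ) + 1 + ((K : ℤ) - 1) + V w ≤ 2 * e + V z + (s : ℤ) * ((K : ℤ) + 2 - s) := by
  have hK := h.hK
  have w1 := h.hi w hw lw
  have z0 : 1 ≤ V z := by
    rcases hN with rfl | rfl | hN | hN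
    · have := h.v0; omega
    · have := h.v1; omega
    · exact h.k2 z hN
    · have := h.k1 z hN; omega
  have hsq := sq_cases K s hK (by omega) h2
  generalize (s : ℤ) * ((K : ℤ) + 2 - s) = Q at *
  rcases hsq with ⟨hs, hv⟩ | ⟨hs, hv⟩ | ⟨hs, hv⟩ | ⟨hs, hv⟩ | ⟨hs, hv⟩ | ⟨hs, hs', hv⟩
  · omega
  · rcases he with rfl | rfl | rfl
    · omega
    · have : z = w := by omega
      subst this
      omega
    · omega
  · rcases hN with hN | hN | hN | hN
    · subst hN
      rw [h.v0] at *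
      rcases he with rfl | rfl | rfl <;> omega
    · subst hN
      rw [h.v1] at *
      rcases he with rfl | rfl | rfl <;> omega
    · rcases he with rfl | rfl | rfl
      · have := h.k4 w z (by omega) hN
        omega
      · omega
      · omega
    · have hz := h.k1 z hN
      rcases he with rfl | rfl | rfl
      · have := h.k3 w (by omega)
        omega
      · omega
      · omega
  all_goals rcases he with rfl | rfl | rfl <;> omega

/-- (F2) the last step of a chain of pair sets, `N = |V| - 1`, `m' = |W| - 2`, `t = |G'| - 1`. -/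
theorem F2 (h : Pre K V) (m' t N s : ℕ) (h1 : 2 ≤ s) (h2 : s ≤ K) (hx : m' + t + 2 = N + s)
    (hN : N % K = 0 ∨ N % K = 1 ∨ N % K + 2 = K ∨ N % K + 1 = K)
    (hexc : ¬ (N % K + 1 = K ∧ m' % K = 0 ∧ s = 3)) :
    (K : ℤ) + 1 + beta K V m' + beta K V t ≤ beta K V N + (s : ℤ) * ((K : ℤ) + 2 - s) := by
  have hK := h.hK
  obtain ⟨e, he, hq, hr⟩ := red K m' t N s 2 (by omega) (by omega) h2 (by omega) hx
  have lp : m' % K < K := Nat.mod_lt m' (by omega)
  have lw : t % K < K := Nat.mod_lt t (by omega)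
  have lz : N % K < K := Nat.mod_lt N (by omega)
  unfold beta
  rw [hq]
  generalize m' % K = p at *
  generalize t % K = w at *
  generalize N % K = z at *
  have z0 : 1 ≤ V z := by
    rcases hN with rfl | rfl | hN | hN
    · have := h.v0; omega
    · have := h.v1; omega
    · exact h.k2 z hN
    · have := h.k1 z hN; omega
  rcases Nat.eq_zero_or_pos p with hp | hp
  · rcases Nat.eq_zero_or_pos w with hw | hw
    · subst hp hw
      rw [h.v0]
      have hsq := sq_cases K s hK (by omega) h2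
      generalize (s : ℤ) * ((K : ℤ) + 2 - s) = Q at *
      rcases hN with hN | hN | hN | hN
      · subst hN
        rw [h.v0] at *
        rcases hsq with ⟨hs, hv⟩ | ⟨hs, hv⟩ | ⟨hs, hv⟩ | ⟨hs, hv⟩ | ⟨hs, hv⟩ | ⟨hs, hs', hv⟩ <;>
          rcases he with rfl | rfl | rfl <;> omega
      · subst hN
        rcases hsq with ⟨hs, hv⟩ | ⟨hs, hv⟩ | ⟨hs, hv⟩ | ⟨hs, hv⟩ | ⟨hs, hv⟩ | ⟨hs, hs', hv⟩ <;>
          rcases he with rfl | rfl | rfl <;> omega
      · have hz2 := h.k2 z hN
        have hz7 := h.k7 z hN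
        have hs4 : s = 4 := by rcases he with rfl | rfl | rfl <;> omega
        rcases hsq with ⟨hs, hv⟩ | ⟨hs, hv⟩ | ⟨hs, hv⟩ | ⟨hs, hv⟩ | ⟨hs, hv⟩ | ⟨hs, hs', hv⟩ <;>
          rcases he with rfl | rfl | rfl <;> omega
      · have hz := h.k1 z hN
        rcases hsq with ⟨hs, hv⟩ | ⟨hs, hv⟩ | ⟨hs, hv⟩ | ⟨hs, hv⟩ | ⟨hs, hv⟩ | ⟨hs, hs', hv⟩ <;>
          rcases he with rfl | rfl | rfl <;> omega
    · subst hp
      have := F2a h lw lz (by omega) h1 h2 he (by push_cast at hr; linarith) hN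
      rw [h.v0]
      linarith
  · rcases Nat.eq_zero_or_pos w with hw | hw
    · subst hw
      have := F2a h lp lz (by omega) h1 h2 he (by push_cast at hr; linarith) hN
      rw [h.v0]
      linarith
    · have p1 := h.hi p (by omega) lp
      have w1 := h.hi w (by omega) lw
      have hsq := sq_cases K s hK (by omega) h2
      generalize (s : ℤ) * ((K : ℤ) + 2 - s) = Q at *
      rcases hsq with ⟨hs, hv⟩ | ⟨hs, hv⟩ | ⟨hs, hv⟩ | ⟨hs, hv⟩ | ⟨hs, hv⟩ | ⟨hs, hs', hv⟩ <;>
        rcases he with rfl | rfl | rfl <;> omega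

/-- the exceptional case of (F2). -/
theorem F2exc (h : Pre K V) (m' t N s : ℕ) (h1 : 2 ≤ s) (h2 : s ≤ K) (hx : m' + t + 2 = N + s)
    (hN : N % K + 1 = K) (hm : m' % K = 0) (hs3 : s = 3) :
    (K : ℤ) - 1 + beta K V m' + beta K V t = beta K V N + (s : ℤ) * ((K : ℤ) + 2 - s) ∧
      t % K = 0 := by
  have hK := h.hK
  obtain ⟨e, he, hq, hr⟩ := red K m' t N s 2 (by omega) (by omega) h2 (by omega) hx
  have lw : t % K < K := Nat.mod_lt t (by omega)
  have hw : t % K = 0 := by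
    rcases he with rfl | rfl | rfl <;> omega
  refine ⟨?_, hw⟩
  unfold beta
  rw [hq, hm, hw]
  have z2 := h.k1 _ hN
  have v0 := h.v0
  have he' : e = -1 := by
    rcases he with rfl | rfl | rfl <;> omega
  subst hs3
  rw [z2, v0, he']
  push_cast
  ring

end facts

end Pool.Agent.OW
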