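import Pool.Agent.Lib_helper33.OW.Num

/-!
Numeric facts (F3)-(F4) for the bound `beta` of MP_5ababd.
-/

namespace Pool.Agent.OW

section facts

variable {K : ℕ} {V : ℕ → ℤ}

/-- lower bound for `Y` of proper nonclique sets with `|U| - 1 = z` mod `K`, for the residues
`0, 1, K-2, K-1` of the counterexample. -/
def LL (K z : ℕ) : ℤ :=
  if z = 0 ∨ z = 1 ∨ z + 2 = K ∨ z + 1 = K then 4 else if z = 2 then K + 2 else 6

theorem LL_four {K z : ℕ} (h : z = 0 ∨ z = 1 ∨ z + 2 = K ∨ z + 1 = K) : LL K z = 4 := by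
  unfold LL; rw [if_pos h]

theorem LL_two {K z : ℕ} (hK : 7 ≤ K) (h : z = 2) : LL K z = K + 2 := by
  unfold LL; rw [if_neg (by omega), if_pos h]

theorem LL_six {K z : ℕ} (h : 2 < z) (h' : z + 2 < K) : LL K z = 6 := by
  unfold LL; rw [if_neg (by omega), if_neg (by omega)]

theorem LL_ge {K z : ℕ} (hK : 7 ≤ K) : 4 ≤ LL K z := by
  unfold LL; split_ifs <;> omega

theorem F3a (h : Pre K V) {w z s : ℕ} {e : ℤ} (lw : w < K) (lz : z < K) (hw : w ≠ 0)
    (h1 : 2 ≤ s) (h2 : s ≤ K) (he : e = -1 ∨ e = 0 ∨ e = 1)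
    (hr : (w : ℤ) + 2 = z + s + K * e) :
    (K : ℤ) + 2 + ((K : ℤ) - 1) + V w ≤ 2 * e + V z + (s : ℤ) * ((K : ℤ) + 2 - s) + LL K z := by
  have hK := h.hK
  have w1 := h.hi w hw lw
  have z0 := h.lo z lz
  have z7 := h.s7 z lz
  have hL := LL_ge (z := z) hK
  have hsq := sq_cases K s hK (by omega) h2
  generalize (s : ℤ) * ((K : ℤ) + 2 - s) = Q at *
  rcases hsq with ⟨hs, hv⟩ | ⟨hs, hv⟩ | ⟨hs, hv⟩ | ⟨hs, hv⟩ | ⟨hs, hv⟩ | ⟨hs, hs', hv⟩
  · omega
  · rcases he with rfl | rfl | rfl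
    · omega
    · have : z = w := by omega
      subst this
      omega
    · omega
  · rcases he with rfl | rfl | rfl
    · -- z = w + 2
      have hz : z = w + 2 := by omega
      rcases Nat.lt_or_ge z (K - 2) with hz2 | hz2
      · have hL6 := LL_six (K := K) (z := z) (by omega) (by omega)
        rcases Nat.lt_or_ge w 2 with hw2 | hw2
        · have : z = 3 := by omega
          have := h.v3 z this
          omega
        · have := h.st w z hw2 hz (by omega)
          omega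
      · rcases Nat.lt_or_ge z (K - 1) with hz3 | hz3
        · have := h.k4 w z (by omega) (by omega)
          omega
        · have := h.k1 z (by omega)
          have := h.k3 w (by omega)
          omega
    · have : z = 0 ∨ z = 1 := by omega
      rcases this with rfl | rfl
      · rw [h.v0] at *; omega
      · rw [h.v1] at *; omega
    · omega
  all_goals rcases he with rfl | rfl | rfl <;> omega

/-- (F3) the absorbing step, `m' = |W| - 2`, `x = |U| - 1`. -/
theorem F3 (h : Pre K V) (m' t x s : ℕ) (h1 : 2 ≤ s) (h2 : s ≤ K) (hx : m' + t + 2 = x + s) :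
    (K : ℤ) + 2 + beta K V m' + beta K V t ≤
      beta K V x + (s : ℤ) * ((K : ℤ) + 2 - s) + LL K (x % K) := by
  have hK := h.hK
  obtain ⟨e, he, hq, hr⟩ := red K m' t x s 2 (by omega) (by omega) h2 (by omega) hx
  have lp : m' % K < K := Nat.mod_lt m' (by omega)
  have lw : t % K < K := Nat.mod_lt t (by omega)
  have lz : x % K < K := Nat.mod_lt x (by omega)
  unfold beta
  rw [hq]
  generalize m' % K = p at *
  generalize t % K = w at *
  generalize x % K = z at *
  have z0 := h.lo z lz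
  have z7 := h.s7 z lz
  have hL := LL_ge (z := z) hK
  rcases Nat.eq_zero_or_pos p with hp | hp
  · rcases Nat.eq_zero_or_pos w with hw | hw
    · subst hp hw
      rw [h.v0]
      have hsq := sq_cases K s hK (by omega) h2
      generalize (s : ℤ) * ((K : ℤ) + 2 - s) = Q at *
      rcases hsq with ⟨hs, hv⟩ | ⟨hs, hv⟩ | ⟨hs, hv⟩ | ⟨hs, hv⟩ | ⟨hs, hv⟩ | ⟨hs, hs', hv⟩
      · omega
      · rcases he with rfl | rfl | rfl
        · omega
        · have : z = 0 := by omega
          subst this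
          rw [h.v0] at *
          omega
        · omega
      · rcases he with rfl | rfl | rfl
        · have hz : z = 2 := by omega
          have := LL_two (K := K) hK hz
          have := h.v2 z hz
          omega
        · omega
        · omega
      · rcases he with rfl | rfl | rfl
        · have := h.k1 z (by omega)
          omega
        · omega
        · omega
      · rcases he with rfl | rfl | rfl
        · have := h.v3 z (by omega)
          have := LL_six (K := K) (z := z) (by omega) (by omega)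
          omega
        · omega
        · omega
      · rcases he with rfl | rfl | rfl
        · rcases Nat.lt_or_ge z (K - 2) with hz2 | hz2
          · have hL6 := LL_six (K := K) (z := z) (by omega) (by omega)
            omega
          · have := h.k2 z (by omega)
            omega
        · omega
        · omega
    · subst hp
      have := F3a h lw lz (by omega) h1 h2 he (by push_cast at hr; linarith)
      rw [h.v0]
      linarith
  · rcases Nat.eq_zero_or_pos w with hw | hw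
    · subst hw
      have := F3a h lp lz (by omega) h1 h2 he (by push_cast at hr; linarith)
      rw [h.v0]
      linarith
    · have p1 := h.hi p (by omega) lp
      have w1 := h.hi w (by omega) lw
      have hsq := sq_cases K s hK (by omega) h2
      generalize (s : ℤ) * ((K : ℤ) + 2 - s) = Q at *
      rcases hsq with ⟨hs, hv⟩ | ⟨hs, hv⟩ | ⟨hs, hv⟩ | ⟨hs, hv⟩ | ⟨hs, hv⟩ | ⟨hs, hs', hv⟩ <;>
        rcases he with rfl | rfl | rfl <;> omega

/-- (F4a). -/
theorem F4a (h : Pre K V) (m t N s : ℕ) (h1 : 1 ≤ s) (h2 : s ≤ K) (hx : m + t + 1 = N + s)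
    (hm : m % K ≠ 0) (hmN : m % K ≠ N % K) :
    beta K V m + beta K V t + 4 ≤ beta K V N + (s : ℤ) * ((K : ℤ) + 2 - s) := by
  have hK := h.hK
  obtain ⟨e, he, hq, hr⟩ := red K m t N s 1 (by omega) h1 h2 (by omega) hx
  have lp : m % K < K := Nat.mod_lt m (by omega)
  have lw : t % K < K := Nat.mod_lt t (by omega)
  have lz : N % K < K := Nat.mod_lt N (by omega)
  unfold beta
  rw [hq]
  generalize m % K = p at *
  generalize t % K = w at *
  generalize N % K = z at *
  have p1 := h.hi p hm lp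
  have zl := h.lo z lz
  have z7 := h.s7 z lz
  have hsq := sq_cases K s hK h1 h2
  generalize (s : ℤ) * ((K : ℤ) + 2 - s) = Q at *
  rcases Nat.eq_zero_or_pos w with hw | hw
  · subst hw
    rw [h.v0] at *
    rcases hsq with ⟨hs, hv⟩ | ⟨hs, hv⟩ | ⟨hs, hv⟩ | ⟨hs, hv⟩ | ⟨hs, hv⟩ | ⟨hs, hs', hv⟩ <;>
      rcases he with rfl | rfl | rfl <;> omega
  · have w1 := h.hi w (by omega) lw
    rcases hsq with ⟨hs, hv⟩ | ⟨hs, hv⟩ | ⟨hs, hv⟩ | ⟨hs, hv⟩ | ⟨hs, hv⟩ | ⟨hs, hs', hv⟩ <;>
      rcases he with rfl | rfl | rfl <;> omega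

/-- (F4b). -/
theorem F4b (h : Pre K V) (m t x s : ℕ) (h1 : 1 ≤ s) (h2 : s ≤ K) (hx : m + t + 1 = x + s)
    (hm : m % K = 2) (hmx : x % K ≠ 2) :
    beta K V m + beta K V t + (K - 2) ≤ beta K V x + (s : ℤ) * ((K : ℤ) + 2 - s) := by
  have hK := h.hK
  obtain ⟨e, he, hq, hr⟩ := red K m t x s 1 (by omega) h1 h2 (by omega) hx
  have lw : t % K < K := Nat.mod_lt t (by omega)
  have lz : x % K < K := Nat.mod_lt x (by omega)
  unfold beta
  rw [hq]
  rw [hm] at *
  have v2 := h.v2 2 rfl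
  generalize V 2 = a at *
  generalize t % K = w at *
  generalize x % K = z at *
  have zl := h.lo z lz
  have z7 := h.s7 z lz
  have hsq := sq_cases K s hK h1 h2
  generalize (s : ℤ) * ((K : ℤ) + 2 - s) = Q at *
  rcases Nat.eq_zero_or_pos w with hw | hw
  · subst hw
    rw [h.v0] at *
    rcases hsq with ⟨hs, hv⟩ | ⟨hs, hv⟩ | ⟨hs, hv⟩ | ⟨hs, hv⟩ | ⟨hs, hv⟩ | ⟨hs, hs', hv⟩
    · rcases he with rfl | rfl | rfl <;> omega
    · rcases he with rfl | rfl | rfl <;> omega
    · rcases he with rfl | rfl | rfl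
      · have := h.v3 z (by omega)
        omega
      · omega
      · omega
    all_goals rcases he with rfl | rfl | rfl <;> omega
  · have w1 := h.hi w (by omega) lw
    rcases hsq with ⟨hs, hv⟩ | ⟨hs, hv⟩ | ⟨hs, hv⟩ | ⟨hs, hv⟩ | ⟨hs, hv⟩ | ⟨hs, hs', hv⟩
    · rcases he with rfl | rfl | rfl
      · omega
      · rcases Nat.lt_or_ge w 2 with hw2 | hw2
        · have := h.v3 z (by omega)
          omega
        · have := h.md w hw2 (by omega)
          omega
      · have : z = 0 ∨ z = 1 := by omega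
        rcases this with rfl | rfl
        · rw [h.v0] at *; omega
        · rw [h.v1] at *; omega
    all_goals rcases he with rfl | rfl | rfl <;> omega

/-- (F4c). -/
theorem F4c (h : Pre K V) (m t N s : ℕ) (h1 : 1 ≤ s) (h2 : s ≤ K) (hx : m + t + 1 = N + s)
    (hm : m % K = 2)
    (hN : N % K = 0 ∨ N % K = 1 ∨ N % K + 2 = K ∨ N % K + 1 = K) :
    beta K V m + beta K V t + K ≤ beta K V N + (s : ℤ) * ((K : ℤ) + 2 - s) := by
  have hK := h.hK
  obtain ⟨e, he, hq, hr⟩ := red K m t N s 1 (by omega) h1 h2 (by omega) hx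
  have lw : t % K < K := Nat.mod_lt t (by omega)
  have lz : N % K < K := Nat.mod_lt N (by omega)
  unfold beta
  rw [hq]
  rw [hm] at *
  have v2 := h.v2 2 rfl
  generalize V 2 = a at *
  generalize t % K = w at *
  generalize N % K = z at *
  have hsq := sq_cases K s hK h1 h2
  generalize (s : ℤ) * ((K : ℤ) + 2 - s) = Q at *
  have hwv : V w ≤ (K : ℤ) - 1 := by
    rcases Nat.eq_zero_or_pos w with hw | hw
    · subst hw; rw [h.v0]
    · have := h.hi w (by omega) lw; omega
  rcases hN with rfl | rfl | hN | hN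
  · rw [h.v0] at *
    rcases Nat.eq_zero_or_pos w with hw | hw
    · subst hw
      rw [h.v0] at *
      rcases hsq with ⟨hs, hv⟩ | ⟨hs, hv⟩ | ⟨hs, hv⟩ | ⟨hs, hv⟩ | ⟨hs, hv⟩ | ⟨hs, hs', hv⟩ <;>
        rcases he with rfl | rfl | rfl <;> omega
    · have w1 := h.hi w (by omega) lw
      rcases hsq with ⟨hs, hv⟩ | ⟨hs, hv⟩ | ⟨hs, hv⟩ | ⟨hs, hv⟩ | ⟨hs, hv⟩ | ⟨hs, hs', hv⟩ <;>
        rcases he with rfl | rfl | rfl <;> omega
  · rw [h.v1] at *
    rcases Nat.eq_zero_or_pos w with hw | hw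
    · subst hw
      rw [h.v0] at *
      rcases hsq with ⟨hs, hv⟩ | ⟨hs, hv⟩ | ⟨hs, hv⟩ | ⟨hs, hv⟩ | ⟨hs, hv⟩ | ⟨hs, hs', hv⟩ <;>
        rcases he with rfl | rfl | rfl <;> omega
    · have w1 := h.hi w (by omega) lw
      rcases hsq with ⟨hs, hv⟩ | ⟨hs, hv⟩ | ⟨hs, hv⟩ | ⟨hs, hv⟩ | ⟨hs, hv⟩ | ⟨hs, hs', hv⟩ <;>
        rcases he with rfl | rfl | rfl <;> omega
  · have hz := h.k2 z hN
    rcases Nat.eq_zero_or_pos w with hw | hw
    · subst hw
      rw [h.v0] at *
      rcases hsq with ⟨hs, hv⟩ | ⟨hs, hv⟩ | ⟨hs, hv⟩ | ⟨hs, hv⟩ | ⟨hs, hv⟩ | ⟨hs, hs', hv⟩ <;>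
        rcases he with rfl | rfl | rfl <;> omega
    · have w1 := h.hi w (by omega) lw
      rcases hsq with ⟨hs, hv⟩ | ⟨hs, hv⟩ | ⟨hs, hv⟩ | ⟨hs, hv⟩ | ⟨hs, hv⟩ | ⟨hs, hs', hv⟩
      · rcases he with rfl | rfl | rfl
        · omega
        · have := h.k4 w z (by omega) hN
          omega
        · omega
      all_goals rcases he with rfl | rfl | rfl <;> omega
  · have hz := h.k1 z hN
    rcases Nat.eq_zero_or_pos w with hw | hw
    · subst hw
      rw [h.v0] at *
      rcases hsq with ⟨hs, hv⟩ | ⟨hs, hv⟩ | ⟨hs, hv⟩ | ⟨hs, hv⟩ | ⟨hs, hv⟩ | ⟨hs, hs', hv⟩ <;>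
        rcases he with rfl | rfl | rfl <;> omega
    · have w1 := h.hi w (by omega) lw
      rcases hsq with ⟨hs, hv⟩ | ⟨hs, hv⟩ | ⟨hs, hv⟩ | ⟨hs, hv⟩ | ⟨hs, hv⟩ | ⟨hs, hs', hv⟩ <;>
        rcases he with rfl | rfl | rfl <;> omega

end facts

end Pool.Agent.OW
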