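import Pool.Agent.Lib_helper33.OW.Num2

/-!
Numeric facts (F5)-(F7) and others for the bound `beta` of MP_5ababd.
-/

namespace Pool.Agent.OW

section facts

variable {K : ℕ} {V : ℕ → ℤ}

theorem F5a (h : Pre K V) {w z s : ℕ} {e : ℤ} (lw : w < K) (hw : w ≠ 0)
    (h1 : 2 ≤ s) (h2 : s ≤ K) (he : e = -1 ∨ e = 0 ∨ e = 1)
    (hr : (w : ℤ) + 1 = z + s + K * e) (hN : 2 ≤ z) (hN2 : z + 3 ≤ K) :
    (K : ℤ) - 1 + V w + 2 * (iR K z : ℤ) ≤ 2 * e + V z + (s : ℤ) * ((K : ℤ) + 2 - s) := by
  have hK := h.hK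
  have w1 := h.hi w hw lw
  have z0 := h.lo z (by omega)
  have z7 := h.s7 z (by omega)
  have i1 := iR_le K z hK
  have hsq := sq_cases K s hK (by omega) h2
  generalize (s : ℤ) * ((K : ℤ) + 2 - s) = Q at *
  rcases hsq with ⟨hs, hv⟩ | ⟨hs, hv⟩ | ⟨hs, hv⟩ | ⟨hs, hv⟩ | ⟨hs, hv⟩ | ⟨hs, hs', hv⟩
  · omega
  · rcases he with rfl | rfl | rfl
    · omega
    · rcases Nat.lt_or_ge K (w + 3) with hw3 | hw3
      · have := h.k3 z (by omega)
        omega
      · have := h.md w (by omega) hw3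
        omega
    · omega
  · rcases he with rfl | rfl | rfl
    · rcases Nat.lt_or_ge z 3 with hz3 | hz3
      · have hz : z = 2 := by omega
        subst hz
        have := h.r2 2 rfl
        omega
      · have := h.dn z w hz3 hN2 (by omega)
        omega
    · omega
    · omega
  all_goals rcases he with rfl | rfl | rfl <;> omega

/-- (F5) `2 ≤ r ≤ K - 3`, the last step with `s ≥ 2`. -/
theorem F5 (h : Pre K V) (m t N s : ℕ) (h1 : 2 ≤ s) (h2 : s ≤ K) (hx : m + t + 1 = N + s)
    (hN : 2 ≤ N % K) (hN2 : N % K + 3 ≤ K) :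
    beta K V m + beta K V t + 2 * (iR K (N % K) : ℤ) ≤
      beta K V N + (s : ℤ) * ((K : ℤ) + 2 - s) := by
  have hK := h.hK
  obtain ⟨e, he, hq, hr⟩ := red K m t N s 1 (by omega) (by omega) h2 (by omega) hx
  have lp : m % K < K := Nat.mod_lt m (by omega)
  have lw : t % K < K := Nat.mod_lt t (by omega)
  unfold beta
  rw [hq]
  generalize m % K = p at *
  generalize t % K = w at *
  generalize N % K = z at *
  have z0 := h.lo z (by omega)
  have z7 := h.s7 z (by omega)
  have i1 := iR_le K z hK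
  rcases Nat.eq_zero_or_pos p with hp | hp
  · rcases Nat.eq_zero_or_pos w with hw | hw
    · subst hp hw
      rw [h.v0]
      have hsq := sq_cases K s hK (by omega) h2
      generalize (s : ℤ) * ((K : ℤ) + 2 - s) = Q at *
      rcases hsq with ⟨hs, hv⟩ | ⟨hs, hv⟩ | ⟨hs, hv⟩ | ⟨hs, hv⟩ | ⟨hs, hv⟩ | ⟨hs, hs', hv⟩
      · omega
      · rcases he with rfl | rfl | rfl <;> omega
      · rcases he with rfl | rfl | rfl <;> omega
      · rcases he with rfl | rfl | rfl <;> omega
      · rcases he with rfl | rfl | rfl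
        · have hz : z = 2 := by omega
          subst hz
          have := h.r2 2 rfl
          omega
        · omega
        · omega
      · rcases he with rfl | rfl | rfl <;> omega
    · subst hp
      have := F5a h lw (by omega) h1 h2 he (by push_cast at hr; linarith) hN hN2
      rw [h.v0]
      linarith
  · rcases Nat.eq_zero_or_pos w with hw | hw
    · subst hw
      have := F5a h lp (by omega) h1 h2 he (by push_cast at hr; linarith) hN hN2
      rw [h.v0]
      linarith
    · have p1 := h.hi p (by omega) lp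
      have w1 := h.hi w (by omega) lw
      have hsq := sq_cases K s hK (by omega) h2
      generalize (s : ℤ) * ((K : ℤ) + 2 - s) = Q at *
      rcases hsq with ⟨hs, hv⟩ | ⟨hs, hv⟩ | ⟨hs, hv⟩ | ⟨hs, hv⟩ | ⟨hs, hv⟩ | ⟨hs, hs', hv⟩ <;>
        rcases he with rfl | rfl | rfl <;> omega

/-- (F6) for `s = 1`. -/
theorem F6one (h : Pre K V) (a t N : ℕ) (hx : a + t = N + 1)
    (hN : 2 ≤ N % K) (hN2 : N % K + 3 ≤ K) :
    beta K V a + beta K V t ≤ beta K V N + 2 + 2 * (iR K (N % K) : ℤ) := by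
  have hK := h.hK
  obtain ⟨e, he, hq, hr⟩ := red K a t N 1 0 (by omega) le_rfl (by omega) (by omega) hx
  have lp : a % K < K := Nat.mod_lt a (by omega)
  have lw : t % K < K := Nat.mod_lt t (by omega)
  unfold beta
  rw [hq]
  generalize a % K = p at *
  generalize t % K = w at *
  generalize N % K = z at *
  have z0 := h.lo z (by omega)
  have z7 := h.s7 z (by omega)
  have i1 := iR_ge K z hK
  rcases Nat.eq_zero_or_pos p with hp | hp
  · rcases Nat.eq_zero_or_pos w with hw | hw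
    · subst hp hw
      rcases he with rfl | rfl | rfl <;> omega
    · subst hp
      rw [h.v0]
      rcases he with rfl | rfl | rfl
      · omega
      · have := h.up z w hN hN2 (by omega)
        omega
      · omega
  · rcases Nat.eq_zero_or_pos w with hw | hw
    · subst hw
      rw [h.v0]
      rcases he with rfl | rfl | rfl
      · omega
      · have := h.up z p hN hN2 (by omega)
        omega
      · omega
    · have p1 := h.hi p (by omega) lp
      have w1 := h.hi w (by omega) lw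
      rcases he with rfl | rfl | rfl <;> omega

theorem F6a (h : Pre K V) {w z s : ℕ} {e : ℤ} (lw : w < K) (hw : w ≠ 0)
    (h1 : 2 ≤ s) (h2 : s ≤ K) (he : e = -1 ∨ e = 0 ∨ e = 1)
    (hr : (w : ℤ) = z + s + K * e) (hN : 2 ≤ z) (hN2 : z + 3 ≤ K) :
    (K : ℤ) - 1 + ((K : ℤ) - 1) + V w ≤ 2 * e + V z + (s : ℤ) * ((K : ℤ) + 2 - s) := by
  have hK := h.hK
  have w1 := h.hi w hw lw
  have z0 := h.lo z (by omega)
  have z7 := h.s7 z (by omega)
  have hsq := sq_cases K s hK (by omega) h2
  generalize (s : ℤ) * ((K : ℤ) + 2 - s) = Q at *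
  rcases hsq with ⟨hs, hv⟩ | ⟨hs, hv⟩ | ⟨hs, hv⟩ | ⟨hs, hv⟩ | ⟨hs, hv⟩ | ⟨hs, hs', hv⟩
  · omega
  · rcases he with rfl | rfl | rfl
    · omega
    · have := h.up2 z w hN hN2 (by omega)
      omega
    · omega
  · rcases he with rfl | rfl | rfl
    · have : z = w := by omega
      subst this
      omega
    · omega
    · omega
  all_goals rcases he with rfl | rfl | rfl <;> omega

/-- (F6) for `s ≥ 2`, `a = m + 1`. -/
theorem F6two (h : Pre K V) (a t N s : ℕ) (h1 : 2 ≤ s) (h2 : s ≤ K) (hx : a + t = N + s)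
    (hN : 2 ≤ N % K) (hN2 : N % K + 3 ≤ K)
    (hexc : ¬ (N % K + 3 = K ∧ a % K = 0 ∧ s = 3)) :
    (K : ℤ) - 1 + beta K V a + beta K V t ≤ beta K V N + (s : ℤ) * ((K : ℤ) + 2 - s) := by
  have hK := h.hK
  obtain ⟨e, he, hq, hr⟩ := red K a t N s 0 (by omega) (by omega) h2 (by omega) hx
  have lp : a % K < K := Nat.mod_lt a (by omega)
  have lw : t % K < K := Nat.mod_lt t (by omega)
  unfold beta
  rw [hq]
  generalize a % K = p at *
  generalize t % K = w at *
  generalize N % K = z at *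
  have z0 := h.lo z (by omega)
  have z7 := h.s7 z (by omega)
  rcases Nat.eq_zero_or_pos p with hp | hp
  · rcases Nat.eq_zero_or_pos w with hw | hw
    · subst hp hw
      rw [h.v0]
      have hsq := sq_cases K s hK (by omega) h2
      generalize (s : ℤ) * ((K : ℤ) + 2 - s) = Q at *
      rcases hsq with ⟨hs, hv⟩ | ⟨hs, hv⟩ | ⟨hs, hv⟩ | ⟨hs, hv⟩ | ⟨hs, hv⟩ | ⟨hs, hs', hv⟩ <;>
        rcases he with rfl | rfl | rfl <;> omega
    · subst hp
      have := F6a h lw (by omega) h1 h2 he (by push_cast at hr; linarith) hN hN2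
      rw [h.v0]
      linarith
  · rcases Nat.eq_zero_or_pos w with hw | hw
    · subst hw
      have := F6a h lp (by omega) h1 h2 he (by push_cast at hr; linarith) hN hN2
      rw [h.v0]
      linarith
    · have p1 := h.hi p (by omega) lp
      have w1 := h.hi w (by omega) lw
      have hsq := sq_cases K s hK (by omega) h2
      generalize (s : ℤ) * ((K : ℤ) + 2 - s) = Q at *
      rcases hsq with ⟨hs, hv⟩ | ⟨hs, hv⟩ | ⟨hs, hv⟩ | ⟨hs, hv⟩ | ⟨hs, hv⟩ | ⟨hs, hs', hv⟩ <;>
        rcases he with rfl | rfl | rfl <;> omega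

/-- the exceptional case of (F6). -/
theorem F6exc (h : Pre K V) (a t N : ℕ) (hx : a + t = N + 3)
    (hN : N % K + 3 = K) (ha : a % K = 0) :
    (K : ℤ) - 3 + beta K V a + beta K V t = beta K V N + 3 * ((K : ℤ) + 2 - 3) ∧
      t % K = 0 := by
  have hK := h.hK
  obtain ⟨e, he, hq, hr⟩ := red K a t N 3 0 (by omega) (by omega) (by omega) (by omega) hx
  have lw : t % K < K := Nat.mod_lt t (by omega)
  have hw : t % K = 0 := by
    rcases he with rfl | rfl | rfl <;> omega
  refine ⟨?_, hw⟩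
  unfold beta
  rw [hq, ha, hw]
  have z3 := h.k3 _ hN
  have v0 := h.v0
  have he' : e = -1 := by
    rcases he with rfl | rfl | rfl <;> omega
  rw [z3, v0, he']
  ring

/-- (F7) for `m` not divisible by `K`. -/
theorem F7a (h : Pre K V) (m t N s : ℕ) (h1 : 1 ≤ s) (h2 : s ≤ K) (hx : m + t + 1 = N + s)
    (hN : N % K = 0) (hm : m % K ≠ 0) :
    beta K V m + beta K V t + (2 * K - 2) ≤ beta K V N + (s : ℤ) * ((K : ℤ) + 2 - s) := by
  have hK := h.hK
  obtain ⟨e, he, hq, hr⟩ := red K m t N s 1 (by omega) h1 h2 (by omega) hx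
  have lp : m % K < K := Nat.mod_lt m (by omega)
  have lw : t % K < K := Nat.mod_lt t (by omega)
  unfold beta
  rw [hq, hN, h.v0]
  rw [hN] at hr
  generalize m % K = p at *
  generalize t % K = w at *
  have p1 := h.hi p hm lp
  have hsq := sq_cases K s hK h1 h2
  generalize (s : ℤ) * ((K : ℤ) + 2 - s) = Q at *
  rcases Nat.eq_zero_or_pos w with hw | hw
  · subst hw
    rw [h.v0] at *
    rcases hsq with ⟨hs, hv⟩ | ⟨hs, hv⟩ | ⟨hs, hv⟩ | ⟨hs, hv⟩ | ⟨hs, hv⟩ | ⟨hs, hs', hv⟩ <;>
      rcases he with rfl | rfl | rfl <;> omega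
  · have w1 := h.hi w (by omega) lw
    rcases hsq with ⟨hs, hv⟩ | ⟨hs, hv⟩ | ⟨hs, hv⟩ | ⟨hs, hv⟩ | ⟨hs, hv⟩ | ⟨hs, hs', hv⟩ <;>
      rcases he with rfl | rfl | rfl <;> omega

/-- (F7) for `m` divisible by `K` and `s ≥ 2`. -/
theorem F7b (h : Pre K V) (m t N s : ℕ) (h1 : 2 ≤ s) (h2 : s ≤ K) (hx : m + t + 1 = N + s)
    (hN : N % K = 0) (hm : m % K = 0) :
    beta K V m + beta K V t + (2 * K - 2) ≤ beta K V N + (s : ℤ) * ((K : ℤ) + 2 - s) := by
  have hK := h.hK
  obtain ⟨e, he, hq, hr⟩ := red K m t N s 1 (by omega) (by omega) h2 (by omega) hx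
  have lw : t % K < K := Nat.mod_lt t (by omega)
  unfold beta
  rw [hq, hN, hm, h.v0]
  rw [hN, hm] at hr
  generalize t % K = w at *
  have hsq := sq_cases K s hK (by omega) h2
  generalize (s : ℤ) * ((K : ℤ) + 2 - s) = Q at *
  rcases Nat.eq_zero_or_pos w with hw | hw
  · subst hw
    rw [h.v0] at *
    rcases hsq with ⟨hs, hv⟩ | ⟨hs, hv⟩ | ⟨hs, hv⟩ | ⟨hs, hv⟩ | ⟨hs, hv⟩ | ⟨hs, hs', hv⟩ <;>
      rcases he with rfl | rfl | rfl <;> omega
  · have w1 := h.hi w (by omega) lw
    rcases hsq with ⟨hs, hv⟩ | ⟨hs, hv⟩ | ⟨hs, hv⟩ | ⟨hs, hv⟩ | ⟨hs, hv⟩ | ⟨hs, hs', hv⟩ <;>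
      rcases he with rfl | rfl | rfl <;> omega

/-- (N4) -/
theorem F7c (h : Pre K V) (m t N s : ℕ) (h1 : 3 ≤ s) (h2 : s ≤ K) (hx : m + t + 1 = N + s)
    (hN : N % K = 0) (hm : m % K = 1) :
    beta K V m + beta K V t + (2 * K - 1) ≤ beta K V N + (s : ℤ) * ((K : ℤ) + 2 - s) := by
  have hK := h.hK
  obtain ⟨e, he, hq, hr⟩ := red K m t N s 1 (by omega) (by omega) h2 (by omega) hx
  have lw : t % K < K := Nat.mod_lt t (by omega)
  unfold beta
  rw [hq, hN, hm, h.v0, h.v1]
  rw [hN, hm] at hr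
  generalize t % K = w at *
  have hsq := sq_cases K s hK (by omega) h2
  generalize (s : ℤ) * ((K : ℤ) + 2 - s) = Q at *
  rcases Nat.eq_zero_or_pos w with hw | hw
  · subst hw
    rw [h.v0] at *
    rcases hsq with ⟨hs, hv⟩ | ⟨hs, hv⟩ | ⟨hs, hv⟩ | ⟨hs, hv⟩ | ⟨hs, hv⟩ | ⟨hs, hs', hv⟩ <;>
      rcases he with rfl | rfl | rfl <;> omega
  · have w1 := h.hi w (by omega) lw
    rcases hsq with ⟨hs, hv⟩ | ⟨hs, hv⟩ | ⟨hs, hv⟩ | ⟨hs, hv⟩ | ⟨hs, hv⟩ | ⟨hs, hs', hv⟩ <;>
      rcases he with rfl | rfl | rfl <;> omega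

/-- `beta (m + K) = beta m + 2` -/
theorem beta_add_K (h : Pre K V) (m : ℕ) : beta K V (m + K) = beta K V m + 2 := by
  have hK := h.hK
  unfold beta
  rw [Nat.add_div_right m (by omega), Nat.add_mod_right]
  push_cast
  ring

/-- relation between `m` and `m + j` for `j ≤ K`. -/
theorem red2 (K m j : ℕ) (hK : 0 < K) (hj : j ≤ K) :
    (((m + j) / K : ℕ) = m / K ∧ (m + j) % K = m % K + j) ∨
      (((m + j) / K : ℕ) = m / K + 1 ∧ (m + j) % K + K = m % K + j) := by
  have hm := Nat.div_add_mod m K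
  have hx := Nat.div_add_mod (m + j) K
  have lm := Nat.mod_lt m hK
  have lx := Nat.mod_lt (m + j) hK
  generalize m / K = a at *
  generalize m % K = p at *
  generalize (m + j) / K = d at *
  generalize (m + j) % K = z at *
  subst hm
  have h1 : K * d + z = K * a + p + j := hx
  have u1 : d < a + 2 := by
    by_contra hh
    have : K * (a + 2) ≤ K * d := Nat.mul_le_mul_left K (by omega)
    have : K * (a + 2) = K * a + 2 * K := by ring
    omega
  have u2 : a ≤ d := by
    by_contra hh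
    have : K * (d + 1) ≤ K * a := Nat.mul_le_mul_left K (by omega)
    have : K * (d + 1) = K * d + K := by ring
    omega
  have : d = a ∨ d = a + 1 := by omega
  rcases this with rfl | rfl
  · left; omega
  · right
    have : K * (a + 1) = K * a + K := by ring
    omega

/-- `beta` decreases at most by `K`. -/
theorem beta_drop (h : Pre K V) (m j : ℕ) (hj : j ≤ K) : beta K V m ≤ beta K V (m + j) + K := by
  have hK := h.hK
  have lp : m % K < K := Nat.mod_lt m (by omega)
  have lz : (m + j) % K < K := Nat.mod_lt _ (by omega)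
  have h2 := red2 K m j (by omega) hj
  have z0 := h.lo _ lz
  have p0 : V (m % K) ≤ K - 1 := by
    rcases Nat.eq_zero_or_pos (m % K) with hp | hp
    · rw [hp, h.v0]
    · have := h.hi _ (by omega) lp; omega
  unfold beta
  omega

/-- `a = 2` in the clone flex count. -/
theorem D2 (h : Pre K V) (x : ℕ) : beta K V x ≤ beta K V (x + (K - 1)) + (K - 3) := by
  have hK := h.hK
  have lp : x % K < K := Nat.mod_lt x (by omega)
  have lz : (x + (K - 1)) % K < K := Nat.mod_lt _ (by omega)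
  have h2 := red2 K x (K - 1) (by omega) (by omega)
  have z0 := h.lo _ lz
  rcases Nat.eq_zero_or_pos (x % K) with hp | hp
  · have := h.k1 ((x + (K - 1)) % K) (by omega)
    unfold beta
    rw [hp, h.v0, this]
    omega
  · have p1 := h.hi _ (by omega) lp
    unfold beta
    omega

theorem D2' (h : Pre K V) (x : ℕ) (hx : x % K ≠ 0) :
    beta K V x ≤ beta K V (x + (K - 1)) + 1 := by
  have hK := h.hK
  have lp : x % K < K := Nat.mod_lt x (by omega)
  have lz : (x + (K - 1)) % K < K := Nat.mod_lt _ (by omega)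
  have h2 := red2 K x (K - 1) (by omega) (by omega)
  have z0 := h.lo _ lz
  have p1 := h.hi _ (by omega) lp
  unfold beta
  omega

theorem D3 (h : Pre K V) (x : ℕ) : beta K V x ≤ beta K V (x + (K - 2)) + (K - 2) := by
  have hK := h.hK
  have lp : x % K < K := Nat.mod_lt x (by omega)
  have lz : (x + (K - 2)) % K < K := Nat.mod_lt _ (by omega)
  have h2 := red2 K x (K - 2) (by omega) (by omega)
  have z0 := h.lo _ lz
  rcases Nat.eq_zero_or_pos (x % K) with hp | hp
  · have := h.k2 ((x + (K - 2)) % K) (by omega)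
    unfold beta
    rw [hp, h.v0]
    omega
  · have p1 := h.hi _ (by omega) lp
    unfold beta
    omega

/-- (N3) the pair bound for `m' = m - 1`. -/
theorem N3 (h : Pre K V) (m' : ℕ) :
    ((m' + 1) % K = 0 → beta K V m' - beta K V (m' + 1) + K + 1 = 2) ∧
    ((m' + 1) % K = 1 → beta K V m' - beta K V (m' + 1) + K + 1 = 2 * K - 2) ∧
    (2 ≤ (m' + 1) % K → beta K V m' - beta K V (m' + 1) + K + 1 < 2 * K - 2) := by
  have hK := h.hK
  have lp : m' % K < K := Nat.mod_lt m' (by omega)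
  have lz : (m' + 1) % K < K := Nat.mod_lt _ (by omega)
  have h2 := red2 K m' 1 (by omega) (by omega)
  refine ⟨fun hz => ?_, fun hz => ?_, fun hz => ?_⟩
  · have hp := h.k1 (m' % K) (by omega)
    unfold beta
    rw [hz, h.v0, hp]
    omega
  · have hp : m' % K = 0 := by omega
    unfold beta
    rw [hz, hp, h.v0, h.v1]
    omega
  · have p1 := h.hi (m' % K) (by omega) lp
    have z0 := h.lo _ lz
    have md := h.md
    have hz2 : (m' + 1) % K = 2 → 0 ≤ V ((m' + 1) % K) := fun hh => (h.v2 _ hh).1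
    rcases Nat.lt_or_ge (m' % K) 2 with hp | hp
    · have := hz2 (by omega)
      unfold beta
      omega
    · rcases Nat.lt_or_ge K (m' % K + 3) with hp3 | hp3
      · have : 1 ≤ V ((m' + 1) % K) := by
          have := h.k1 ((m' + 1) % K) (by omega)
          omega
        unfold beta
        omega
      · have := h.md (m' % K) hp hp3
        unfold beta
        omega

/-- (N6) -/
theorem N6 (h : Pre K V) (m a : ℕ) (ha : a + 2 ≤ K) :
    (K : ℤ) + 1 + beta K V m - beta K V (m + (K - a)) - 2 * a - ((K : ℤ) - 1 - a) * (1 + a) ≤ 0 := by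
  have hK := h.hK
  rcases Nat.lt_or_ge a 2 with h2 | h2
  · have : a = 0 ∨ a = 1 := by omega
    rcases this with rfl | rfl
    · have := beta_add_K h m
      rw [Nat.sub_zero, this]
      push_cast
      nlinarith
    · have := D2 h m
      push_cast
      nlinarith
  · have := beta_drop h m (K - a) (by omega)
    have e1 : (2 : ℤ) ≤ a := by omega
    have e2 : (a : ℤ) + 2 ≤ K := by omega
    nlinarith [mul_nonneg (sub_nonneg.2 e1) (sub_nonneg.2 e2)]

end facts

end Pool.Agent.OW
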