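import Pool.Agent.Lib_helper33.OW.NumE

/-!
The numeric facts F5, F6, F6' for `bt K`, in the form used by `boot'`, `c1_mid`, `c1_flex`.
-/

set_option autoImplicit false

namespace Pool.Agent.OW33

open Pool.Agent.OW

variable {K : ℕ}

theorem two_iR_le (hK : 7 ≤ K) (r : ℕ) : 2 * iR K r ≤ K := by
  unfold iR; split_ifs <;> omega

/-- `F5` with `L = 2 * iR K r`, `i0 = iR K r`. -/
theorem f5 (hK : 7 ≤ K) (N : ℕ) (h2 : 2 ≤ N % K) (h3 : N % K + 3 ≤ K) :
    ∀ m s : ℕ, 2 ≤ s → s ≤ K → m < N →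
      bt K m + bt K (N - m + s - 1) + 2 * (iR K (N % K) : ℤ) ≤
        bt K N + (s : ℤ) * ((K : ℤ) + 2 - s) :=
  fun m s h1 hs hm => N_F5 hK N m s h1 hs hm.le h2 h3

/-- `F6` at the residues `2 ≤ r ≤ K - 4`. -/
theorem f6 (hK : 7 ≤ K) (N : ℕ) (h2 : 2 ≤ N % K) (h3 : N % K + 4 ≤ K) :
    ∀ m s : ℕ, 1 ≤ s → s ≤ K → m < N →
      (K : ℤ) - 1 + bt K (m + 1) + bt K (N - m + s - 1) ≤
        bt K N + (s : ℤ) * ((K : ℤ) + 2 - s) +
          (if s = 1 then 2 * (iR K (N % K) : ℤ) else 0) := by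
  intro m s h1 hs hm
  by_cases h : s = 1
  · subst h
    rw [if_pos rfl]
    have := N_F6one hK N m hm.le h2 (by omega)
    have e : N - m + 1 - 1 = N - m := by omega
    rw [e]
    push_cast
    linarith
  · rw [if_neg h]
    have := N_F6two hK N m s (by omega) hs hm.le h2 (by omega) (by omega)
    linarith

/-- `F6` at the residue `r = K - 3`. -/
theorem f6k (hK : 7 ≤ K) (N : ℕ) (h3 : N % K + 3 = K) :
    ∀ m s : ℕ, 1 ≤ s → s ≤ K → m < N → ¬ (m % K = K - 1 ∧ s = 3) →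
      (K : ℤ) - 1 + bt K (m + 1) + bt K (N - m + s - 1) ≤
        bt K N + (s : ℤ) * ((K : ℤ) + 2 - s) +
          (if s = 1 then 2 * (iR K (N % K) : ℤ) else 0) := by
  intro m s h1 hs hm hex
  by_cases h : s = 1
  · subst h
    rw [if_pos rfl]
    have := N_F6one hK N m hm.le (by omega) (by omega)
    have e : N - m + 1 - 1 = N - m := by omega
    rw [e]
    push_cast
    linarith
  · rw [if_neg h]
    have := N_F6two hK N m s (by omega) hs hm.le (by omega) (by omega)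
      (by rintro ⟨-, a2, a3⟩; exact hex ⟨by omega, a3⟩)
    linarith

/-- `F6'` at the residue `r = K - 3`. -/
theorem f6' (hK : 7 ≤ K) (N : ℕ) (h3 : N % K + 3 = K) :
    ∀ m : ℕ, 3 ≤ K → m < N → m % K = K - 1 →
      (K : ℤ) - 1 + bt K (m + 1) + bt K (N - m + 3 - 1) ≤
        bt K N + (3 : ℤ) * ((K : ℤ) + 2 - 3) + 2 := by
  intro m _ hm hmK
  have := (N_F6exc hK N m hm.le h3 (by omega)).1
  have e : N - m + 3 - 1 = N - m + 2 := by omega
  rw [e]
  linarith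

end Pool.Agent.OW33
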